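import Pool.Agent.Helper28.T5.StV

/-!
# Project TK, low levels, module LW1: the central component is an extended symbol modulo `p^M`

The proof follows Pool/Agent/Helper69/THV/M_LW1.lean.
-/

set_option autoImplicit false

namespace Pool.Agent.Helper28.T5V

open Pool.Agent.Helper28.TH (OkH ALPlus)
open Pool.Agent.Helper28.T5 Pool.Agent.Helper28.WK Pool.Agent.Helper28.LV Pool.Agent.Helper14.CV
open Polynomial

private lemma map_eq (N : ℕ) (a : ℕ) (α β γ δ D : ℤ) (hd : α * δ - β * γ = D)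
    (hb : (N : ℤ) ∣ β) (hc : (N : ℤ) ∣ γ) :
    (((C α * X + C β) ^ a * (C γ * X + C δ) ^ (2 * a - a) : ℤ[X]).map
      (Int.castRingHom (ZMod N))) = C ((D : ZMod N) ^ a) * X ^ a := by
  have h1 : ((β : ℤ) : ZMod N) = 0 := (ZMod.intCast_zmod_eq_zero_iff_dvd β N).2 hb
  have h2 : ((γ : ℤ) : ZMod N) = 0 := (ZMod.intCast_zmod_eq_zero_iff_dvd γ N).2 hc
  have h3 : (α : ZMod N) * (δ : ZMod N) = D := by
    have h4 : ((α * δ - β * γ : ℤ) : ZMod N) = D := by rw [hd]
    push_cast at h4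
    rw [h1, h2] at h4
    simpa using h4
  have h5 : 2 * a - a = a := by omega
  rw [h5]
  simp only [Polynomial.map_mul, Polynomial.map_pow, Polynomial.map_add, Polynomial.map_C,
    Polynomial.map_X, Int.coe_castRingHom, h1, h2]
  rw [← mul_pow, C_pow, ← mul_pow]
  congr 1
  have h6 : (C (α : ZMod N)) * C (δ : ZMod N) = C (D : ZMod N) := by
    rw [← C_mul, h3]
  simp only [map_zero, add_zero, zero_mul, zero_add]
  calc C (α : ZMod N) * X * C (δ : ZMod N) = (C (α : ZMod N) * C (δ : ZMod N)) * X := by ring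
    _ = C (D : ZMod N) * X := by rw [h6]

private lemma red_pr {p : ℕ} [Fact p.Prime] (M a : ℕ) (Φ : ℤ → ℤ → ℕ → ℤ_[p]) (P : ℤ[X])
    (k : ZMod (p ^ M))
    (hP : P.map (Int.castRingHom (ZMod (p ^ M))) = C k * X ^ a) (x y : ℤ) :
    PadicInt.toZModPow M (pr Φ P x y) = k * PadicInt.toZModPow M (Φ x y a) := by
  have hc : ∀ i, ((P.coeff i : ℤ) : ZMod (p ^ M)) = if i = a then k else 0 := by
    intro i
    have h1 := congrArg (fun Q => Polynomial.coeff Q i) hP
    simp only [Polynomial.coeff_map, eq_intCast, Polynomial.coeff_C_mul,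
      Polynomial.coeff_X_pow, mul_ite, mul_one, mul_zero] at h1
    exact h1
  have h2 : pr Φ P x y = ∑ i ∈ Finset.range (P.natDegree + a + 1), P.coeff i • Φ x y i := by
    rw [pr_eq_sum Φ P (P.natDegree + a + 1) (by omega), Finset.sum_apply, Finset.sum_apply]
    rfl
  rw [h2, map_sum, Finset.sum_eq_single a]
  · rw [map_zsmul, zsmul_eq_mul, hc, if_pos rfl]
  · intro i _ hi
    rw [map_zsmul, zsmul_eq_mul, hc, if_neg hi, zero_mul]
  · intro h
    exact absurd (Finset.mem_range.2 (by omega)) h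

/-- LW1. -/
theorem hLW1 : ZLW1 := by
  intro p hp a n Φ h2p h M hM
  refine ⟨?_, ?_⟩
  · intro k x y hk hxy
    exact congrArg (PadicInt.toZModPow M) (h.hom a (by omega) k x y hk hxy)
  · intro α β γ δ hty hb hc
    have hc' : (p : ℤ) ^ n ∣ γ := (pow_dvd_pow _ (by omega)).trans hc
    have hbN : ((p ^ M : ℕ) : ℤ) ∣ β := by push_cast; exact hb
    have hcN : ((p ^ M : ℕ) : ℤ) ∣ γ := by
      push_cast; exact (pow_dvd_pow _ (by omega)).trans hc
    rcases hty with ⟨hd, h2c⟩ | ⟨hd, h2a, h2c, h2d⟩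
    · obtain ⟨c, hc2⟩ := h.eqv α β γ δ hd h2c hc' a (by omega)
      refine ⟨PadicInt.toZModPow M c, fun x y hxy => ?_⟩
      have h1 := congrArg (PadicInt.toZModPow M) (hc2 x y hxy)
      rw [map_add, red_pr M a Φ _ _ (map_eq (p ^ M) a α β γ δ 1 hd hbN hcN), Int.cast_one,
        one_pow, one_mul] at h1
      exact h1
    · obtain ⟨c, hc2⟩ := h.eqq α β γ δ hd h2a h2c h2d hc' a (by omega)
      have hcop : Nat.Coprime (5 ^ a) (p ^ M) := by
        apply Nat.Coprime.pow
        exact (Nat.coprime_primes Nat.prime_five hp.out).2 (Ne.symm h2p)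
      have hu := ZMod.coe_mul_inv_eq_one (5 ^ a) hcop
      set u : ZMod (p ^ M) := (((5 ^ a : ℕ) : ZMod (p ^ M)))⁻¹ with hud
      have hu' : (5 : ZMod (p ^ M)) ^ a * u = 1 := by
        have h3 : ((5 ^ a : ℕ) : ZMod (p ^ M)) = (5 : ZMod (p ^ M)) ^ a := by push_cast; rfl
        rw [h3] at hu
        exact hu
      refine ⟨u * PadicInt.toZModPow M c, fun x y hxy => ?_⟩
      have h1 := congrArg (PadicInt.toZModPow M) (hc2 x y hxy)
      rw [map_add, red_pr M a Φ _ _ (map_eq (p ^ M) a α β γ δ 5 hd hbN hcN), Pi.smul_apply,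
        Pi.smul_apply, map_zsmul, zsmul_eq_mul] at h1
      have h4 : ((5 ^ a : ℤ) : ZMod (p ^ M)) = (5 : ZMod (p ^ M)) ^ a := by push_cast; rfl
      have h5 : ((5 : ℤ) : ZMod (p ^ M)) = 5 := by push_cast; rfl
      rw [h4, h5] at h1
      change PadicInt.toZModPow M (act α β γ δ (cp Φ a) x y) =
        PadicInt.toZModPow M (Φ x y a) + u * PadicInt.toZModPow M c
      linear_combination u * h1 - (PadicInt.toZModPow M (act α β γ δ (cp Φ a) x y) -
        PadicInt.toZModPow M (Φ x y a)) * hu'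

end Pool.Agent.Helper28.T5V
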