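import Pool.Agent.Helper28.T5.StV

/-!
# Project TK, low levels, module MCG: the p-adic grid

Adapted from `Pool/Agent/Helper89/THV/M_MCG.lean` and `Pool/Agent/Helper66/TLV/M_MCG.lean`.
-/

set_option autoImplicit false

namespace Pool.Agent.Helper28.T5V

open Pool.Agent.Helper28.TH (OkH ALPlus)

open Pool.Agent.Helper28.T5 Pool.Agent.Helper28.WK Pool.Agent.Helper28.LV Pool.Agent.Helper28.T5 Pool.Agent.Helper14.CV

private lemma nz1 {v1 v2 x k : ℤ} (h : v1 ≠ 0 ∨ v2 ≠ 0) :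
    v1 + x * v2 ≠ 0 ∨ k * (v1 + x * v2) + v2 ≠ 0 := by
  by_contra hc
  push Not at hc
  obtain ⟨h1, h2⟩ := hc
  rw [h1, mul_zero, zero_add] at h2
  rw [h2, mul_zero, add_zero] at h1
  exact h.elim (fun h => h h1) (fun h => h h2)

private lemma nz2 {v1 v2 k b : ℤ} (h : v1 ≠ 0 ∨ v2 ≠ 0) :
    v1 + b * (k * v1 + v2) ≠ 0 ∨ k * v1 + v2 ≠ 0 := by
  by_contra hc
  push Not at hc
  obtain ⟨h1, h2⟩ := hc
  rw [h2, mul_zero, add_zero] at h1
  rw [h1, mul_zero, zero_add] at h2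
  exact h.elim (fun h => h h1) (fun h => h h2)

private lemma dvd_of_red {p : ℕ} [Fact p.Prime] {L : ℕ} {A B : ℤ_[p]}
    (h : PadicInt.toZModPow L A = PadicInt.toZModPow L B) : (p : ℤ_[p]) ^ L ∣ A - B := by
  have h1 : A - B ∈ RingHom.ker (PadicInt.toZModPow (p := p) L) := by
    rw [RingHom.mem_ker, map_sub, h, sub_self]
  rw [PadicInt.ker_toZModPow] at h1
  exact Ideal.mem_span_singleton.1 h1

private lemma zero_diff {R : Type} [AddCommGroup R] {X : ℤ → ℤ → R} (h : EqC X 0)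
    {w1 w2 v1 v2 : ℤ} (hw : w1 ≠ 0 ∨ w2 ≠ 0) (hv : v1 ≠ 0 ∨ v2 ≠ 0) :
    X w1 w2 - X v1 v2 = 0 := by
  obtain ⟨c, hc⟩ := h
  rw [hc w1 w2 hw, hc v1 v2 hv]
  simp

private lemma lim0 {p : ℕ} [hp : Fact p.Prime] (z : ℚ_[p]) (K : ℝ)
    (h : ∀ L : ℕ, 3 ≤ L → ‖z‖ ≤ K * ((p : ℝ) ^ L)⁻¹) : z = 0 := by
  have h1 : Filter.Tendsto (fun L : ℕ => K * ((p : ℝ) ^ L)⁻¹) Filter.atTop (nhds (K * 0)) := by
    refine Filter.Tendsto.const_mul K ?_
    exact (tendsto_pow_atTop_atTop_of_one_lt (by exact_mod_cast hp.out.one_lt)).inv_tendsto_atTop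
  rw [mul_zero] at h1
  have h2 : ‖z‖ ≤ 0 := ge_of_tendsto h1 (Filter.eventually_atTop.2 ⟨3, fun L hL => h L hL⟩)
  exact norm_le_zero_iff.1 h2

private lemma norm_dvd {p : ℕ} [hp : Fact p.Prime] (L : ℕ) (z : ℤ_[p])
    (h : (p : ℤ_[p]) ^ L ∣ z) : ‖(z : ℚ_[p])‖ ≤ ((p : ℝ) ^ L)⁻¹ := by
  obtain ⟨t, rfl⟩ := h
  rw [← PadicInt.norm_def, norm_mul, PadicInt.norm_p_pow, zpow_neg, zpow_natCast]
  have : (0 : ℝ) ≤ ((p : ℝ) ^ L)⁻¹ := by positivity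
  exact mul_le_of_le_one_right this (PadicInt.norm_le_one t)

private lemma ex_inv (p ν : ℕ) (hν : 1 ≤ ν) (L : ℕ) (x y : ℤ) :
    ∃ u : ℤ, (p : ℤ) ^ L ∣ u * (1 - 5 * (p : ℤ) ^ ν * x * y) - 1 := by
  have h1 : IsCoprime (p : ℤ) (1 - 5 * (p : ℤ) ^ ν * x * y) := by
    obtain ⟨m, rfl⟩ : ∃ m, ν = m + 1 := ⟨ν - 1, by omega⟩
    exact ⟨5 * (p : ℤ) ^ m * x * y, 1, by ring⟩
  obtain ⟨s, u, hsu⟩ := h1.pow_left (m := L)
  exact ⟨u, -s, by linear_combination hsu⟩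

/-- The Lagrange basis. -/
private noncomputable def lb {K : Type} [Field K] (a t : ℕ) : Polynomial K :=
  Lagrange.basis (Finset.range (a + 1)) (fun i : ℕ => (i : K)) t

private lemma lb_deg {K : Type} [Field K] [CharZero K] (a t : ℕ) (ht : t ∈ Finset.range (a + 1)) :
    (lb (K := K) a t).natDegree ≤ a := by
  have hinj : Set.InjOn (fun i : ℕ => (i : K)) (Finset.range (a + 1) : Finset ℕ) :=
    fun x _ y _ hxy => Nat.cast_injective hxy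
  have h1 := Lagrange.degree_basis hinj ht
  rw [Finset.card_range] at h1
  refine Polynomial.natDegree_le_of_degree_le ?_
  unfold lb
  rw [h1]
  simp

private lemma interp {K : Type} [Field K] [CharZero K] (a : ℕ) (f : Polynomial K)
    (hf : f.natDegree ≤ a) (y : K) :
    f.eval y = ∑ t ∈ Finset.range (a + 1), f.eval (t : K) * (lb (K := K) a t).eval y := by
  have hinj : Set.InjOn (fun i : ℕ => (i : K)) (Finset.range (a + 1) : Finset ℕ) :=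
    fun x _ y _ hxy => Nat.cast_injective hxy
  have hdeg : f.degree < ((Finset.range (a + 1)).card : WithBot ℕ) := by
    rw [Finset.card_range]
    exact Polynomial.degree_le_natDegree.trans_lt (by exact_mod_cast Nat.lt_succ_of_le hf)
  have h1 := Lagrange.eq_interpolate hinj hdeg
  have h2 := congrArg (fun q : Polynomial K => q.eval y) h1
  simp only [Lagrange.interpolate_apply, Polynomial.eval_finsetSum, Polynomial.eval_mul,
    Polynomial.eval_C] at h2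
  exact h2

theorem hMCG : ZMCG := by
  intro hGp hPl hCC p hp a ν H hν hH hlev hNb hNc v1 v2 w1 w2 hv hw
  set Fc : ℤ → ℤ → ℤ_[p] := fun x c =>
    H (w1 + x * w2) (5 * (p : ℤ) ^ ν * c * (w1 + x * w2) + w2) -
      H (v1 + x * v2) (5 * (p : ℤ) ^ ν * c * (v1 + x * v2) + v2) with hFc
  set Fb : ℤ → ℤ → ℤ_[p] := fun y b =>
    H (w1 + b * (5 * (p : ℤ) ^ ν * y * w1 + w2)) (5 * (p : ℤ) ^ ν * y * w1 + w2) -
      H (v1 + b * (5 * (p : ℤ) ^ ν * y * v1 + v2)) (5 * (p : ℤ) ^ ν * y * v1 + v2) with hFb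
  have plc : ∀ x : ℤ, Plf a (Fc x) := by
    intro x c
    have h1 := zero_diff (hNc (5 * (p : ℤ) ^ ν) dvd_rfl)
      (nz1 (x := x) (k := 5 * (p : ℤ) ^ ν * c) hw) (nz1 (x := x) (k := 5 * (p : ℤ) ^ ν * c) hv)
    rw [← h1]
    simp only [Nc, hFc]
    rw [← Finset.sum_sub_distrib]
    refine Finset.sum_congr rfl fun j _ => ?_
    rw [← smul_sub]
    congr 2
    · congr 1
      ring
    · congr 1
      ring
  have plb : ∀ y : ℤ, Plf a (Fb y) := by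
    intro y b
    have h1 := zero_diff (hNb 1)
      (nz2 (k := 5 * (p : ℤ) ^ ν * y) (b := b) hw) (nz2 (k := 5 * (p : ℤ) ^ ν * y) (b := b) hv)
    rw [← h1]
    simp only [Nb, hFb]
    rw [← Finset.sum_sub_distrib]
    refine Finset.sum_congr rfl fun j _ => ?_
    rw [← smul_sub]
    congr 1
    have e1 : w1 + (b + (j : ℤ)) * (5 * (p : ℤ) ^ ν * y * w1 + w2) =
        w1 + b * (5 * (p : ℤ) ^ ν * y * w1 + w2) + j * 1 * (5 * (p : ℤ) ^ ν * y * w1 + w2) := by ring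
    have e2 : v1 + (b + (j : ℤ)) * (5 * (p : ℤ) ^ ν * y * v1 + v2) =
        v1 + b * (5 * (p : ℤ) ^ ν * y * v1 + v2) + j * 1 * (5 * (p : ℤ) ^ ν * y * v1 + v2) := by ring
    rw [e1, e2]
  have A1 := fun x : ℤ => (hGp hPl p hp a ν (Fc x) x hν).1 (plc x)
  have A2 := fun y : ℤ => (hGp hPl p hp a ν (Fb y) y hν).1 (plb y)
  choose f Kf hfd hf using A1
  choose g Kg hgd hg using A2
  have hcong : ∀ (L : ℕ) (x y c b : ℤ), 3 ≤ L →
      (p : ℤ) ^ L ∣ c * (1 - 5 * (p : ℤ) ^ ν * x * y) - y →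
      (p : ℤ) ^ L ∣ b * (1 - 5 * (p : ℤ) ^ ν * x * y) - x →
      (p : ℤ_[p]) ^ L ∣ Fc x c - Fb y b := by
    intro L x y c b hL hc hb
    have k1 := hCC p ν L (ZMod (p ^ L)) inferInstance (redP L H) (hlev L hL) x y c b v1 v2 w1 w2
      hv hw hc hb
    simp only [redP] at k1
    refine dvd_of_red ?_
    simp only [hFc, hFb]
    rw [map_sub, map_sub]
    exact k1
  have pts : ∀ (L : ℕ) (x y : ℤ), ∃ c b : ℤ,
      (p : ℤ) ^ L ∣ c * (1 - 5 * (p : ℤ) ^ ν * x * y) - y ∧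
      (p : ℤ) ^ L ∣ b * (1 - 5 * (p : ℤ) ^ ν * x * y) - x := by
    intro L x y
    obtain ⟨u, t, ht⟩ := ex_inv p ν hν L x y
    exact ⟨u * y, u * x, ⟨t * y, by linear_combination y * ht⟩,
      ⟨t * x, by linear_combination x * ht⟩⟩
  have hwt : ∀ x y : ℤ, ‖(1 - 5 * (p : ℚ_[p]) ^ ν * x * y) ^ a‖ ≤ 1 := by
    intro x y
    have h1 : (1 - 5 * (p : ℚ_[p]) ^ ν * x * y) = ((1 - 5 * (p : ℤ) ^ ν * x * y : ℤ) : ℚ_[p]) := by
      push_cast
      ring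
    rw [norm_pow, h1]
    exact pow_le_one₀ (norm_nonneg _) (Padic.norm_int_le_one _)
  have sw : ∀ x y : ℤ, (1 - 5 * (p : ℚ_[p]) ^ ν * y * x) = (1 - 5 * (p : ℚ_[p]) ^ ν * x * y) := by
    intro x y
    ring
  have hf' : ∀ (L : ℕ) (x y c : ℤ), 1 ≤ L → (p : ℤ) ^ L ∣ c * (1 - 5 * (p : ℤ) ^ ν * x * y) - y →
      ‖(1 - 5 * (p : ℚ_[p]) ^ ν * x * y) ^ a * ((Fc x c : ℤ_[p]) : ℚ_[p]) -
        (f x).eval (y : ℚ_[p])‖ ≤ Kf x * ((p : ℝ) ^ L)⁻¹ := by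
    intro L x y c hL h
    have e1 := hf x L y c hL (by rw [show 5 * (p : ℤ) ^ ν * y * x = 5 * p ^ ν * x * y by ring]; exact h)
    rw [sw] at e1
    exact e1
  have B1 : ∀ x y : ℤ, (f x).eval (y : ℚ_[p]) = (g y).eval (x : ℚ_[p]) := by
    intro x y
    refine sub_eq_zero.1 (lim0 _ (Kf x + 1 + Kg y) fun L hL => ?_)
    obtain ⟨c, b, h1, h2⟩ := pts L x y
    have e1 := hf' L x y c (by omega) h1
    have e2 := hg y L x b (by omega) h2
    have e3 := norm_dvd L _ (hcong L x y c b hL h1 h2)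
    set w := (1 - 5 * (p : ℚ_[p]) ^ ν * x * y) ^ a with hwdef
    have e4 : ‖w * ((Fc x c - Fb y b : ℤ_[p]) : ℚ_[p])‖ ≤ ((p : ℝ) ^ L)⁻¹ := by
      rw [norm_mul]
      calc ‖w‖ * ‖((Fc x c - Fb y b : ℤ_[p]) : ℚ_[p])‖ ≤ 1 * ((p : ℝ) ^ L)⁻¹ :=
            mul_le_mul (hwt x y) e3 (norm_nonneg _) zero_le_one
        _ = _ := one_mul _
    have e5 : (f x).eval (y : ℚ_[p]) - (g y).eval (x : ℚ_[p]) =
        -(w * ((Fc x c : ℤ_[p]) : ℚ_[p]) - (f x).eval (y : ℚ_[p])) +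
          w * ((Fc x c - Fb y b : ℤ_[p]) : ℚ_[p]) +
          (w * ((Fb y b : ℤ_[p]) : ℚ_[p]) - (g y).eval (x : ℚ_[p])) := by
      rw [PadicInt.coe_sub (Fc x c) (Fb y b)]
      ring
    rw [e5]
    refine (norm_add_le _ _).trans ?_
    refine (add_le_add_left (norm_add_le _ _) _).trans ?_
    rw [norm_neg, add_mul, add_mul, one_mul]
    exact add_le_add (add_le_add e1 e4) e2
  refine ⟨fun i j => ∑ t ∈ Finset.range (a + 1), (g (t : ℤ)).coeff i *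
    (lb (K := ℚ_[p]) a t).coeff j, fun L x y c hL hc => ?_⟩
  -- the value of the double sum
  have hsum : ∑ i ∈ Finset.range (a + 1), ∑ j ∈ Finset.range (a + 1),
      (∑ t ∈ Finset.range (a + 1), (g (t : ℤ)).coeff i * (lb (K := ℚ_[p]) a t).coeff j) *
        ((x : ℚ_[p]) ^ i * (y : ℚ_[p]) ^ j) = (f x).eval (y : ℚ_[p]) := by
    rw [interp a (f x) (hfd x) (y : ℚ_[p])]
    have e1 : ∀ t ∈ Finset.range (a + 1), (f x).eval (t : ℚ_[p]) * (lb (K := ℚ_[p]) a t).eval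
        (y : ℚ_[p]) = ∑ i ∈ Finset.range (a + 1), ∑ j ∈ Finset.range (a + 1),
          ((g (t : ℤ)).coeff i * (lb (K := ℚ_[p]) a t).coeff j) *
            ((x : ℚ_[p]) ^ i * (y : ℚ_[p]) ^ j) := by
      intro t ht
      have h1 := B1 x (t : ℤ)
      rw [Int.cast_natCast] at h1
      rw [h1, Polynomial.eval_eq_sum_range' (n := a + 1) (Nat.lt_succ_of_le (hgd (t : ℤ))),
        Polynomial.eval_eq_sum_range' (n := a + 1) (Nat.lt_succ_of_le (lb_deg a t ht)),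
        Finset.sum_mul_sum]
      refine Finset.sum_congr rfl fun i _ => Finset.sum_congr rfl fun j _ => ?_
      ring
    rw [Finset.sum_congr rfl e1]
    refine Eq.trans ?_ Finset.sum_comm
    refine Finset.sum_congr rfl fun i _ => ?_
    refine Eq.trans ?_ Finset.sum_comm
    refine Finset.sum_congr rfl fun j _ => ?_
    rw [Finset.sum_mul]
  rw [hsum]
  -- a larger exponent
  obtain ⟨L', hL1, hL2⟩ : ∃ L' : ℕ, L ≤ L' ∧ Kf x * ((p : ℝ) ^ L')⁻¹ ≤ ((p : ℝ) ^ L)⁻¹ := by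
    have h1 : Filter.Tendsto (fun L' : ℕ => Kf x * ((p : ℝ) ^ L')⁻¹) Filter.atTop
        (nhds (Kf x * 0)) := by
      refine Filter.Tendsto.const_mul _ ?_
      exact (tendsto_pow_atTop_atTop_of_one_lt
        (by exact_mod_cast hp.out.one_lt)).inv_tendsto_atTop
    rw [mul_zero] at h1
    have hpos : (0 : ℝ) < ((p : ℝ) ^ L)⁻¹ := by
      have : (0 : ℝ) < p := by exact_mod_cast hp.out.pos
      positivity
    have h2 := (h1.eventually (ge_mem_nhds hpos)).and (Filter.eventually_ge_atTop L)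
    obtain ⟨L', h3, h4⟩ := h2.exists
    exact ⟨L', h4, h3⟩
  obtain ⟨c', b, hc', hb⟩ := pts L' x y
  have hpL : (p : ℤ) ^ L ∣ (p : ℤ) ^ L' := pow_dvd_pow _ hL1
  have d1 := hcong L x y c b hL hc (hpL.trans hb)
  have d2 := hcong L x y c' b hL (hpL.trans hc') (hpL.trans hb)
  have d3 : (p : ℤ_[p]) ^ L ∣ Fc x c - Fc x c' := by
    have := dvd_sub d1 d2
    rwa [show Fc x c - Fb y b - (Fc x c' - Fb y b) = Fc x c - Fc x c' by ring] at this
  have e1 := hf' L' x y c' (by omega) hc'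
  have e3 := norm_dvd L _ d3
  set w := (1 - 5 * (p : ℚ_[p]) ^ ν * x * y) ^ a with hwdef
  have e4 : ‖w * ((Fc x c - Fc x c' : ℤ_[p]) : ℚ_[p])‖ ≤ ((p : ℝ) ^ L)⁻¹ := by
    rw [norm_mul]
    calc ‖w‖ * ‖((Fc x c - Fc x c' : ℤ_[p]) : ℚ_[p])‖ ≤ 1 * ((p : ℝ) ^ L)⁻¹ :=
          mul_le_mul (hwt x y) e3 (norm_nonneg _) zero_le_one
      _ = _ := one_mul _
  have e5 : w * ((Fc x c : ℤ_[p]) : ℚ_[p]) - (f x).eval (y : ℚ_[p]) =
      w * ((Fc x c - Fc x c' : ℤ_[p]) : ℚ_[p]) +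
        (w * ((Fc x c' : ℤ_[p]) : ℚ_[p]) - (f x).eval (y : ℚ_[p])) := by
    rw [PadicInt.coe_sub (Fc x c) (Fc x c')]
    ring
  show ‖w * ((Fc x c : ℤ_[p]) : ℚ_[p]) - (f x).eval (y : ℚ_[p])‖ ≤ ((p : ℝ) ^ L)⁻¹
  rw [e5]
  refine (IsUltrametricDist.norm_add_le_max _ _).trans ?_
  exact max_le e4 (e1.trans hL2)

end Pool.Agent.Helper28.T5V
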