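import Pool.Agent.Helper28.T5.StV

/-!
# Project TK-V, MODULE UIW: the involution
-/

set_option autoImplicit false

namespace Pool.Agent.Helper28.T5V

open Pool.Agent.Helper28.TH (OkH ALPlus)

open Pool.Agent.Helper28.T5 Pool.Agent.Helper28.WK Pool.Agent.Helper28.LV Pool.Agent.Helper28.T5
open Pool.Agent.Helper14.CV

private theorem ext3 {p : ℕ} [Fact p.Prime] {x y : ℤ_[p]}
    (h : ∀ M : ℕ, 3 ≤ M → PadicInt.toZModPow M x = PadicInt.toZModPow M y) : x = y := by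
  apply PadicInt.ext_of_toZModPow.1
  intro n
  rcases le_or_gt 3 n with hn | hn
  · exact h n hn
  · have h2 := h 3 le_rfl
    rw [← PadicInt.cast_toZModPow n 3 (by omega) x, ← PadicInt.cast_toZModPow n 3 (by omega) y, h2]

private theorem or_l {k : ℤ} (hk : k ≠ 0) {x y : ℤ} (h : x ≠ 0 ∨ y ≠ 0) : k * x ≠ 0 ∨ y ≠ 0 := by
  rcases h with h0 | h0
  · exact Or.inl (mul_ne_zero hk h0)
  · exact Or.inr h0

private theorem or_w {k : ℤ} (hk : k ≠ 0) {x y : ℤ} (h : x ≠ 0 ∨ y ≠ 0) : -y ≠ 0 ∨ k * x ≠ 0 := by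
  rcases h with h0 | h0
  · exact Or.inr (mul_ne_zero hk h0)
  · exact Or.inl (neg_ne_zero.2 h0)

/-- The difference of the two symbols. -/
private def chi {R : Type} [AddCommGroup R] (p n : ℕ) (G : ℤ → ℤ → R) : ℤ → ℤ → R :=
  fun x y => G (-y) (5 * (p : ℤ) ^ n * x) - G ((p : ℤ) * x) y

private theorem chi_eq {R : Type} [AddCommGroup R] (p n : ℕ) (G : ℤ → ℤ → R) :
    chi p n G = act 0 (-1) (5 * (p : ℤ) ^ n) 0 G + -(act p 0 0 1 G) := by
  funext x y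
  show G (-y) (5 * (p : ℤ) ^ n * x) - G ((p : ℤ) * x) y =
    G (0 * x + -1 * y) (5 * (p : ℤ) ^ n * x + 0 * y) + -G ((p : ℤ) * x + 0 * y) (0 * x + 1 * y)
  have f1 : (0 : ℤ) * x + -1 * y = -y := by ring
  have f2 : 5 * (p : ℤ) ^ n * x + 0 * y = 5 * (p : ℤ) ^ n * x := by ring
  have f3 : (p : ℤ) * x + 0 * y = (p : ℤ) * x := by ring
  have f4 : (0 : ℤ) * x + 1 * y = y := by ring
  rw [f1, f2, f3, f4]
  abel

/-- The level of the difference. -/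
private theorem chi_sym {R : Type} [AddCommGroup R] {p n M : ℕ} (hp : (p : ℤ) ≠ 0) (h2 : ¬ (5 : ℤ) ∣ (p : ℤ))
    (hM : 3 ≤ M) {G : ℤ → ℤ → R} (h : SymH p M (M + n - 1) G) :
    SymH p (M + n + 1) (M + n + 1) (chi p n G) := by
  obtain ⟨e, he⟩ : ∃ e : ℕ, M + n - 1 = e ∧ M + n = e + 1 := ⟨M + n - 1, rfl, by omega⟩
  have hpM : (p : ℤ) ^ (M + n + 1) = (p : ℤ) ^ M * (p : ℤ) ^ n * p := by
    rw [← pow_add, ← pow_succ]
  have hpe : (p : ℤ) ^ (M + n + 1) = (p : ℤ) ^ (M + n - 1) * (p * p) := by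
    rw [he.1, he.2, pow_succ, pow_succ]
    ring
  have hpe' : (p : ℤ) ^ M * (p : ℤ) ^ n = (p : ℤ) ^ (M + n - 1) * p := by
    rw [← pow_add, he.1, he.2, pow_succ]
  have hpn : (p : ℤ) ^ n ≠ 0 := pow_ne_zero n hp
  have hcop : ∀ c : ℤ, (5 : ℤ) ∣ c → (p : ℤ) ^ (M + n + 1) ∣ c → ∃ t : ℤ, c = 5 * (p : ℤ) ^ (M + n + 1) * t := by
    intro c hc1 hc2
    obtain ⟨s, hs⟩ := hc2
    have h3 : (5 : ℤ) ∣ (p : ℤ) ^ (M + n + 1) * s := hs ▸ hc1
    rcases (Int.prime_iff_natAbs_prime.2 (by norm_num) : Prime (5 : ℤ)).dvd_or_dvd h3 with h4 | h4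
    · exact absurd ((Int.prime_iff_natAbs_prime.2 (by norm_num) : Prime (5 : ℤ)).dvd_of_dvd_pow h4) h2
    · obtain ⟨t, ht⟩ := h4
      exact ⟨t, by rw [hs, ht]; ring⟩
  have hce : ∀ a b c d : ℤ, HTy a b c d → (5 : ℤ) ∣ c := by
    intro a b c d hd
    rcases hd with hd | hd
    · exact hd.2
    · exact hd.2.2.1
  rw [chi_eq]
  refine SymH.add (SymH.act h (by simpa using hpn) ?_) (SymH.neg (SymH.act h (by simpa using hp) ?_))
  · intro a b c d hd hb hc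
    obtain ⟨c', hc'⟩ := hcop c (hce a b c d hd) hc
    obtain ⟨b', hb'⟩ := hb
    have hdet : d * a - -((p : ℤ) ^ M * p * c') * -(5 * (p : ℤ) ^ n * b) = a * d - b * c := by
      rw [hc', hpM]; ring
    refine ⟨d, -((p : ℤ) ^ M * p * c'), -(5 * (p : ℤ) ^ n * b), a, ?_, ?_, ?_, ?_, ?_, ?_, ?_⟩
    · rcases hd with hd | hd
      · exact Or.inl ⟨hdet.trans hd.1, Dvd.dvd.neg_right ⟨(p : ℤ) ^ n * b, by ring⟩⟩
      · exact Or.inr ⟨hdet.trans hd.1, hd.2.2.2, Dvd.dvd.neg_right ⟨(p : ℤ) ^ n * b, by ring⟩, hd.2.1⟩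
    · exact Dvd.dvd.neg_right ⟨p * c', by ring⟩
    · exact Dvd.dvd.neg_right ⟨5 * (p : ℤ) ^ n * (p * p) * b', by rw [hb', hpe]; ring⟩
    · rw [hc', hpM]; ring
    · ring
    · ring
    · ring
  · intro a b c d hd hb hc
    obtain ⟨c', hc'⟩ := hcop c (hce a b c d hd) hc
    obtain ⟨b', hb'⟩ := hb
    have hdet : a * d - p * b * (5 * ((p : ℤ) ^ M * (p : ℤ) ^ n * c')) = a * d - b * c := by
      rw [hc', hpM]; ring
    refine ⟨a, p * b, 5 * ((p : ℤ) ^ M * (p : ℤ) ^ n * c'), d, ?_, ?_, ?_, ?_, ?_, ?_, ?_⟩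
    · rcases hd with hd | hd
      · exact Or.inl ⟨hdet.trans hd.1, ⟨_, rfl⟩⟩
      · exact Or.inr ⟨hdet.trans hd.1, hd.2.1, ⟨_, rfl⟩, hd.2.2.2⟩
    · exact ⟨(p : ℤ) * ((p : ℤ) ^ n * p * b'), by rw [hb', hpM]; ring⟩
    · exact ⟨5 * (p * c'), by rw [hpe']; ring⟩
    · ring
    · ring
    · rw [hc', hpM]; ring
    · ring

theorem hUIW : ZUIW := by
  intro hU p hpf κ n G ψ hp2 hψ hL hu hG
  have hp : (p : ℤ) ≠ 0 := by exact_mod_cast hpf.out.ne_zero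
  have h2 : ¬ (5 : ℤ) ∣ (p : ℤ) := by
    intro hh
    have h3 : 5 ∣ p := by exact_mod_cast hh
    exact hp2 ((Nat.prime_dvd_prime_iff_eq Nat.prime_five hpf.out).1 h3).symm
  have h2' : ¬ 5 ∣ p := fun hh => h2 (by exact_mod_cast hh)
  have hp3 : 2 ≤ p := hpf.out.two_le
  have hq : (5 * (p : ℤ) ^ n : ℤ) ≠ 0 := mul_ne_zero (by norm_num) (pow_ne_zero n hp)
  obtain ⟨k, hk⟩ := hu
  obtain ⟨c, hc⟩ := hG
  have hstep : ∀ x y : ℤ, (x ≠ 0 ∨ y ≠ 0) → ψ ((p : ℤ) * x) y = ψ x y + (κ • G x y + k) := by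
    intro x y hxy
    have h1 := hk x y hxy
    have h2 : ψ ((p : ℤ) * x) y - ψ x y = κ • G x y + k := by
      have e : (act p 0 0 1 ψ - ψ) x y = ψ ((p : ℤ) * x) y - ψ x y := by
        show ψ ((p : ℤ) * x + 0 * y) (0 * x + 1 * y) - ψ x y = _
        have f3 : (p : ℤ) * x + 0 * y = (p : ℤ) * x := by ring
        have f4 : (0 : ℤ) * x + 1 * y = y := by ring
        rw [f3, f4]
      rw [e] at h1
      exact h1
    rw [← h2]
    abel
  have hG' : ∀ x y : ℤ, (x ≠ 0 ∨ y ≠ 0) → G (-y) (5 * (p : ℤ) ^ n * x) = -G x y + c := by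
    intro x y hxy
    have h1 := hc x y hxy
    simpa [act] using h1
  -- step A
  have hA : ∀ x y : ℤ, (x ≠ 0 ∨ y ≠ 0) →
      chi p n ψ ((p : ℤ) * x) y = chi p n ψ x y - (κ • c + k + k) := by
    intro x y hxy
    have hx : (p : ℤ) * x ≠ 0 ∨ y ≠ 0 := or_l hp hxy
    have h1 := hstep _ _ (or_w hq hx)
    have h2 := hstep _ _ hx
    have h3 := hG' _ _ hx
    have h4 : ψ ((p : ℤ) * -y) (5 * (p : ℤ) ^ n * ((p : ℤ) * x)) = ψ (-y) (5 * (p : ℤ) ^ n * x) := by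
      rw [← hψ p _ _ hp (or_w hq hxy)]
      congr 1
      ring
    rw [h4, h3] at h1
    simp only [chi]
    rw [h2, h1]
    simp only [smul_add, smul_neg]
    abel
  -- reduction
  have hred : ∀ (M : ℕ), redP M (chi p n ψ) = chi p n (redP M ψ) := by
    intro M
    funext x y
    simp only [redP, chi, map_sub]
  have hD2 : ∀ x y : ℤ, (x ≠ 0 ∨ y ≠ 0) → (6 : ℤ) • chi p n ψ x y = (6 : ℤ) • chi p n ψ 1 0 := by
    intro x y hxy
    apply ext3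
    intro M hM
    have h1 : SymH p (M + n + 1) (M + n + 1) (chi p n (redP M ψ)) := chi_sym hp h2 hM (hL M hM)
    have h2 : EqC (act p 0 0 1 (chi p n (redP M ψ))) (chi p n (redP M ψ)) := by
      refine ⟨-(PadicInt.toZModPow M (κ • c + k + k)), ?_⟩
      intro x' y' h'
      rw [← hred M]
      have h3 := congrArg (PadicInt.toZModPow M) (hA x' y' h')
      rw [map_sub] at h3
      simp only [act, redP]
      rw [zero_mul, add_zero, zero_mul, zero_add, one_mul, h3]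
      abel
    obtain ⟨c', h3⟩ := hU p hp3 h2' _ _ _ _ _ h1 h2
    have h4 := h3 x y hxy
    have h5 := h3 1 0 (Or.inl one_ne_zero)
    have h6 : (6 : ℤ) • chi p n (redP M ψ) x y = (6 : ℤ) • chi p n (redP M ψ) 1 0 := by
      have e4 : ((6 : ℤ) • chi p n (redP M ψ)) x y = (6 : ℤ) • chi p n (redP M ψ) x y := rfl
      have e5 : ((6 : ℤ) • chi p n (redP M ψ)) 1 0 = (6 : ℤ) • chi p n (redP M ψ) 1 0 := rfl
      rw [← e4, ← e5, h4, h5]
      rfl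
    rw [← hred M] at h6
    rw [map_zsmul, map_zsmul]
    exact h6
  have hD : ∀ x y : ℤ, (x ≠ 0 ∨ y ≠ 0) → chi p n ψ x y = chi p n ψ 1 0 := by
    intro x y hxy
    have h1 := hD2 x y hxy
    rw [zsmul_eq_mul, zsmul_eq_mul] at h1
    refine mul_left_cancel₀ ?_ h1
    norm_num
  refine ⟨chi p n ψ 1 0, ?_⟩
  intro x y hxy
  have h1 := hD x y hxy
  rw [← h1]
  simp only [act, chi]
  have f1 : (0 : ℤ) * x + -1 * y = -y := by ring
  have f2 : 5 * (p : ℤ) ^ n * x + 0 * y = 5 * (p : ℤ) ^ n * x := by ring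
  have f3 : (p : ℤ) * x + 0 * y = (p : ℤ) * x := by ring
  have f4 : (0 : ℤ) * x + 1 * y = y := by ring
  rw [f1, f2, f3, f4]
  abel

end Pool.Agent.Helper28.T5V
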