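import Pool.Agent.Helper28.T5V.M_ZH
import Pool.Agent.Helper28.T5W.M_BrgH

/-!
# The Eichler potentials of a newform of level `5 p^n` with `f | W_5 = f`, low levels, and the central values
-/

set_option autoImplicit false

namespace Pool.Agent.Helper28.T5V

open Pool.Agent.Helper14.CV (G0 Homog EqC act)
open Pool.Agent.Helper14.WK
open Pool.Agent.Helper28.WK
open Pool.Agent.Helper28.LV (PhN)
open Pool.Agent.Helper28.TL (IsNewN)
open Pool.Agent.Helper28.T5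
open Pool.Agent.Helper28.TH (OkH ALPlus)
open Pool.Agent.Helper28.T5

/-- The Eichler potentials, any `n`. -/
theorem hBrgV (hA4 : SKA4) (hMod : SKMod) (hP1 : SKP1) (hP2 : SKP2) (hH3 : SKH3) (hA8 : SKA8)
    (hP4 : SKP4)
    (p A n : ℕ) (hp : p.Prime) (hne : NeZero (5 * p ^ n))
    (hk : 0 < (2 * A + 2 : ℤ))
    (f : CuspForm (G0 (5 * p ^ n)) (2 * A + 2)) (hf : IsNewN f) (hal : ALPlus 5 (p ^ n) f)
    (hε : RootOneK hk f) :
    ∃ I : ℤ → ℤ → ℕ → ℂ, IsPotK A f I ∧ IDnH p A n I := by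
  obtain ⟨I, hI, hinf⟩ := hA4 (5 * p ^ n) hne A f
  refine ⟨I, hI, ?_⟩
  constructor
  · exact hP1 _ hne A f I hI
  · exact hinf
  · intro α β γ δ hdet hγ i hi
    have hM := hMod (5 * p ^ n) hne A f α β γ δ hdet (by push_cast; exact hγ)
    obtain ⟨C, hC⟩ := hP2 (5 * p ^ n) hne A f I α β γ δ 1 hI (by rw [hdet]; norm_num)
      (fun z hz => by rw [hM z hz, one_mul]) i hi
    refine ⟨C, fun x y hxy => ?_⟩
    have h1 := hC x y hxy
    rw [hdet] at h1
    simp only [Int.cast_one, one_mul, mp] at h1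
    exact h1
  · intro α β γ δ hdet hα hδ hγ i hi
    have := Pool.Agent.Helper28.THW.eqq_of hP2 5 (p ^ n) (by norm_num) (5 * p ^ n) hne A f hal I hI α β γ δ
      (by exact_mod_cast hdet) (by exact_mod_cast hα) (by exact_mod_cast hδ) (by push_cast; exact_mod_cast hγ) i hi
    exact_mod_cast this
  · have h1 := hP4 (5 * p ^ n) hne A f I hI (hA8 (5 * p ^ n) hne A hk f hε)
    have e : ((5 * p ^ n : ℕ) : ℤ) = 5 * (p : ℤ) ^ n := by push_cast; rfl
    rw [← e]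
    exact h1
  · refine ⟨fun l => fcK f l, fun l m hl hlp hl2 hm i hi x y hxy => ?_⟩
    have hlN : ¬ l ∣ 5 * p ^ n := by
      intro h
      rcases (Nat.Prime.dvd_mul hl).1 h with h | h
      · exact hl2 ((Nat.prime_dvd_prime_iff_eq hl Nat.prime_five).1 h)
      · exact hlp ((Nat.prime_dvd_prime_iff_eq hl hp).1 (hl.dvd_of_dvd_pow h))
    exact hH3 (5 * p ^ n) hne A f I l (fcK f l) m hI hl.pos (hf.hecke l hl hlN) hm i hi x y hxy

/-- Coordinate `z`, level `5 p^n`. -/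
theorem hFinV (hTr : ZLTr) (hAll : ZLAll) (p : ℕ) (hp : p.Prime) (hp2 : p ≠ 5)
    (A n : ℕ) (hA : 1 ≤ A)
    (hQC : ∀ Φ : ℤ → ℤ → ℕ → ℂ, WSNH p A n Φ → EqC (cp Φ A) 0) (hne : NeZero (5 * p ^ n))
    (hk : 0 < (2 * A + 2 : ℤ))
    (f : CuspForm (G0 (5 * p ^ n)) (2 * A + 2)) (hf : IsNewN f) (hal : ALPlus 5 (p ^ n) f)
    (hε : RootOneK hk f) : LanK hk f (1 / 2) ≠ 0 := by
  intro hL
  obtain ⟨a4, kmod, p1, p2, h3, a8, _, _, _, _, p4, a5, kin⟩ := Pool.Agent.Helper28.TLV.ana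
  obtain ⟨I, hI, hD⟩ := hBrgV a4 kmod p1 p2 h3 a8 p4 p A n hp hne hk f hf hal hε
  have h0 := a5 (5 * p ^ n) hne A hk f I hI hL
  have hW := hTr p A n I hp hp2 hD h0
  have hc := hAll p A n _ hp hW (hQC _ hW)
  have hz := hLTr2 p A n I hD hc
  have h1 := kin (5 * p ^ n) hne A f I hA hI hz 1 le_rfl
  rw [hf.normalised] at h1
  exact one_ne_zero h1

end Pool.Agent.Helper28.T5V
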